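import Pool.Agent.H92.SF.LUT
import Pool.Agent.H3.SF.Tg1

/-!
# Board sfu_modules, row PEN: choice of the coordinates
-/

set_option autoImplicit false

namespace Pool.Agent.H54.SFU

open MvPolynomial
open Pool.Agent.H84.SM (dp cr dt)
open Pool.Agent.H3.SF Pool.Agent.H92.SF

section Forms

variable {k : Type} [Field k]

theorem eval_smul' {f : MvPolynomial (Fin 3) k} {m : ℕ} (hf : f.IsHomogeneous m) (c : k)
    (s : Fin 3 → k) : eval (c • s) f = c ^ m * eval s f := by
  rw [eval_eq, eval_eq, Finset.mul_sum]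
  refine Finset.sum_congr rfl fun e he => ?_
  have hd : e.degree = m := by
    by_contra h
    exact mem_support_iff.1 he (hf.coeff_eq_zero h)
  simp only [Pi.smul_apply, smul_eq_mul, mul_pow, Finset.prod_mul_distrib]
  have h1 : ∏ i ∈ e.support, c ^ e i = c ^ m := by
    rw [Finset.prod_pow_eq_pow_sum]
    congr 1
  rw [h1]
  ring

/-- the value of a form at `(0, 0, 1)` -/
theorem eval_single {f : MvPolynomial (Fin 3) k} {m : ℕ} (hf : f.IsHomogeneous m) :
    eval ![0, 0, 1] f = f.coeff (Finsupp.single 2 m) := by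
  classical
  rw [eval_eq']
  have h1 : ∀ e ∈ f.support, e ≠ Finsupp.single 2 m →
      f.coeff e * ∏ i, (![0, 0, 1] : Fin 3 → k) i ^ e i = 0 := by
    intro e he hne
    have hd : e.degree = m := by
      by_contra h
      exact mem_support_iff.1 he (hf.coeff_eq_zero h)
    rw [Fin.prod_univ_three]
    simp only [Matrix.cons_val_zero, Matrix.cons_val_one, Matrix.cons_val, one_pow, mul_one]
    by_cases h0 : e 0 = 0
    · by_cases h1 : e 1 = 0
      · exfalso
        apply hne
        have h2 : e 2 = m := by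
          rw [Finsupp.degree_eq_sum, Fin.sum_univ_three, h0, h1] at hd
          omega
        ext i
        fin_cases i
        · simp [h0]
        · simp [h1]
        · simp [h2]
      · rw [zero_pow h1]; ring
    · rw [zero_pow h0]; ring
  rw [Finset.sum_eq_single (Finsupp.single 2 m) h1]
  · rw [Fin.prod_univ_three]
    simp
  · intro h
    rw [notMem_support_iff.1 h, zero_mul]

theorem sch_hom (a b : k) {f : MvPolynomial (Fin 3) k} {m : ℕ} (hf : f.IsHomogeneous m) :
    (sch a b f).IsHomogeneous m := by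
  have h := hf.aeval (![X 0 + C a * X 2, X 1 + C b * X 2, X 2] :
    Fin 3 → MvPolynomial (Fin 3) k) (n := 1) (by
      intro i
      have hC : ∀ (c : k) (j : Fin 3), (C c * X j : MvPolynomial (Fin 3) k).IsHomogeneous 1 :=
        fun c j => by
          have := (isHomogeneous_C (Fin 3) c).mul (isHomogeneous_X k j)
          rwa [zero_add] at this
      fin_cases i
      · exact (isHomogeneous_X k 0).add (hC a 2)
      · exact (isHomogeneous_X k 1).add (hC b 2)
      · exact isHomogeneous_X k 2)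
  rw [one_mul] at h
  exact h

theorem sch_coeff (a b : k) {f : MvPolynomial (Fin 3) k} {m : ℕ} (hf : f.IsHomogeneous m) :
    (sch a b f).coeff (Finsupp.single 2 m) = eval ![a, b, 1] f := by
  rw [← eval_single (sch_hom a b hf)]
  have h : ((eval ![0, 0, 1]).comp (sch a b : MvPolynomial (Fin 3) k →+* MvPolynomial (Fin 3) k)) =
      eval ![a, b, 1] := by
    apply MvPolynomial.ringHom_ext
    · intro r
      simp [sch]
    · intro i
      fin_cases i <;> simp [sch]
  exact congrArg (fun φ : MvPolynomial (Fin 3) k →+* k => φ f) h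

/-- a point with last coordinate `1` where a form does not vanish -/
theorem exists_pt [Infinite k] {f : MvPolynomial (Fin 3) k} {m : ℕ} (hf : f.IsHomogeneous m)
    (h0 : f ≠ 0) : ∃ a b : k, eval ![a, b, 1] f ≠ 0 := by
  have h1 : f * X 2 ≠ 0 := mul_ne_zero h0 (X_ne_zero 2)
  obtain ⟨v, hv⟩ : ∃ v : Fin 3 → k, eval v (f * X 2) ≠ 0 := by
    by_contra h
    push Not at h
    exact h1 (MvPolynomial.funext fun x => by rw [h x, map_zero])
  rw [map_mul, eval_X] at hv
  have hv1 := left_ne_zero_of_mul hv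
  have hv2 := right_ne_zero_of_mul hv
  refine ⟨(v 2)⁻¹ * v 0, (v 2)⁻¹ * v 1, ?_⟩
  have h2 : (![(v 2)⁻¹ * v 0, (v 2)⁻¹ * v 1, 1] : Fin 3 → k) = (v 2)⁻¹ • v := by
    funext i
    fin_cases i
    · rfl
    · rfl
    · simp [inv_mul_cancel₀ hv2]
  rw [h2, eval_smul' hf]
  exact mul_ne_zero (pow_ne_zero _ (inv_ne_zero hv2)) hv1

end Forms

theorem pf_PEN (hSF2 : Pool.Agent.H3.SF.T_SF2) (hTRX : T_TRX) : T_PEN := by
  intro k F _ _ _ _ _ u dd δ j0 c0 J m G hS hC hm h H hH hH0
  have hB : Bs u dd δ j0 c0 J m G := Bs.of hS hC hm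
  obtain ⟨-, -, -, -, hl, hN⟩ := hSF2 k F u dd δ j0 c0 J hS m G hC
  obtain ⟨l, hl⟩ := hl (by omega)
  obtain ⟨N, hN0, hNh, hNi⟩ := hN (by omega)
  -- the subspace
  let Γ : Fin 3 → F := fun l => aeval u J * dd l G / G
  let φ : (Fin 3 → k) →ₗ[k] F := Fintype.linearCombination k Γ
  let L : Submodule k (Fin 3 → k) := (Subalgebra.toSubmodule (Bb k u)).comap φ
  have hLmem : ∀ c : Fin 3 → k, c ∈ L ↔ Itg k u (∑ i, c i • Γ i) := fun c => Iff.rfl
  have hLt : L < ⊤ := by
    refine lt_of_le_of_ne le_top fun hL => hl ?_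
    have h1 : Pi.single l (1 : k) ∈ L := by rw [hL]; trivial
    rw [hLmem] at h1
    have h2 : ∑ i, (Pi.single l (1 : k) : Fin 3 → k) i • Γ i = Γ l := by
      rw [Finset.sum_eq_single l]
      · rw [Pi.single_eq_same, one_smul]
      · intro i _ hi
        rw [Pi.single_eq_of_ne hi, zero_smul]
      · intro hi
        exact absurd (Finset.mem_univ l) hi
    rw [h2] at h1
    exact h1
  obtain ⟨lam, hlam0, hlamL⟩ := Submodule.exists_le_ker_of_lt_top L hLt
  -- the linear form
  let Λ : MvPolynomial (Fin 3) k := ∑ i, C (lam (Pi.single i 1)) * X i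
  have hΛh : Λ.IsHomogeneous 1 := by
    refine IsHomogeneous.sum _ _ _ fun i _ => ?_
    have := (isHomogeneous_C (Fin 3) (lam (Pi.single i 1))).mul (isHomogeneous_X k i)
    rwa [zero_add] at this
  have hΛe : ∀ c : Fin 3 → k, eval c Λ = lam c := by
    intro c
    have h1 : c = ∑ i, c i • (Pi.single i (1 : k) : Fin 3 → k) := by
      funext j
      rw [Finset.sum_apply, Finset.sum_eq_single j]
      · simp
      · intro i _ hi
        rw [Pi.smul_apply, Pi.single_eq_of_ne (Ne.symm hi), smul_zero]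
      · intro hj
        exact absurd (Finset.mem_univ j) hj
    have h2 : lam c = ∑ i, c i * lam (Pi.single i 1) := by
      conv_lhs => rw [h1]
      rw [map_sum]
      exact Finset.sum_congr rfl fun i _ => by rw [map_smul, smul_eq_mul]
    rw [h2]
    simp only [Λ, map_sum, map_mul, eval_C, eval_X]
    exact Finset.sum_congr rfl fun i _ => mul_comm _ _
  have hΛ0 : Λ ≠ 0 := by
    intro h0
    apply hlam0
    refine LinearMap.ext fun c => ?_
    rw [← hΛe, h0, map_zero]
    rfl
  -- the point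
  haveI : Infinite k := IsAlgClosed.instInfinite
  obtain ⟨a, b, hab⟩ := exists_pt ((hNh.mul hH).mul hΛh) (mul_ne_zero (mul_ne_zero hN0 hH0) hΛ0)
  rw [map_mul, map_mul] at hab
  have hab1 := left_ne_zero_of_mul (left_ne_zero_of_mul hab)
  have hab2 := right_ne_zero_of_mul (left_ne_zero_of_mul hab)
  have hab3 := right_ne_zero_of_mul hab
  rw [hΛe] at hab3
  obtain ⟨t1, t2, -, t4, -⟩ := hTRX k F u dd δ j0 c0 J m G hB a b
  refine ⟨a, b, ⟨t1, ?_, ?_⟩, ?_⟩
  · refine ⟨δ * m, C ((eval ![a, b, 1] N)⁻¹) * sch a b N, ?_, ?_, ?_, ?_⟩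
    · have h1 := hS.pos
      have h2 : 0 < δ * m := Nat.mul_pos (by omega) (by omega)
      omega
    · have := (isHomogeneous_C (Fin 3) ((eval ![a, b, 1] N)⁻¹)).mul (sch_hom a b hNh)
      rwa [zero_add] at this
    · rw [coeff_C_mul, sch_coeff a b hNh, inv_mul_cancel₀ hab1]
    · rw [t2, map_mul, t4, algHom_C, mul_div_assoc]
      exact (Bb k u).mul_mem ((Bb k u).algebraMap_mem _) hNi
  · intro h1
    rw [t2, t4] at h1
    apply hab3
    have h2 : (![a, b, 1] : Fin 3 → k) ∈ L := by
      rw [hLmem]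
      have h3 : ∑ i, (![a, b, 1] : Fin 3 → k) i • Γ i =
          aeval u J * (dch a b dd 2) G / G := by
        rw [Fin.sum_univ_three]
        simp only [Matrix.cons_val_zero, Matrix.cons_val_one, Matrix.cons_val, dch,
          Derivation.add_apply, Derivation.smul_apply, Γ, Algebra.smul_def, map_one]
        ring
      rw [h3]
      exact h1
    exact hlamL h2
  · rw [sch_coeff a b hH]
    exact hab2

end Pool.Agent.H54.SFU
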